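import Pool.Agent.J6H80.BG.Stm

/-!
# LAT: the lattice sum `q^{3/2} ∑ 1 / (q |n|² + Δ)²`

By `1 / A² = ∫ t exp (- A t) dt` the sum is `∫ t exp (- Δ t) θ (q t)³ dt`; the functional equation of
`θ` gives `√(π / x) ≤ θ x ≤ √(π / x) exp (2 x / π²)`, so `q^{3/2}` times the sum lies between
`π² / √Δ` and `π² / √(Δ - 6 q / π²)`.
-/

set_option autoImplicit false

open MeasureTheory Set Filter Topology
open scoped ENNReal

namespace Pool.Agent.J6H48.BG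

/-- Gamma integral -/
theorem lint_gamma {a r : ℝ} (ha : 0 < a) (hr : 0 < r) :
    ∫⁻ t in Ioi (0 : ℝ), ENNReal.ofReal (t ^ (a - 1) * Real.exp (-(r * t))) =
      ENNReal.ofReal ((1 / r) ^ a * Real.Gamma a) := by
  rw [← Real.integral_rpow_mul_exp_neg_mul_Ioi ha hr, ofReal_integral_eq_lintegral_ofReal]
  · have h := integrableOn_rpow_mul_exp_neg_mul_rpow (s := a - 1) (p := 1) (b := r) (by linarith)
      one_pos hr
    have h' : IntegrableOn (fun t : ℝ => t ^ (a - 1) * Real.exp (-(r * t))) (Ioi 0) volume := by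
      simpa only [Real.rpow_one, neg_mul] using h
    exact h'
  · exact (ae_restrict_mem measurableSet_Ioi).mono fun t ht =>
      mul_nonneg (Real.rpow_nonneg (le_of_lt ht) _) (Real.exp_pos _).le

theorem hasSum_geo {y : ℝ} (hy : 0 < y) :
    HasSum (fun n : ℤ => Real.exp (-y * |(n : ℝ)|))
      ((1 - Real.exp (-y))⁻¹ + Real.exp (-y) * (1 - Real.exp (-y))⁻¹) := by
  have h0 := (Real.exp_pos (-y)).le
  have h1 : Real.exp (-y) < 1 := by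
    rw [Real.exp_lt_one_iff]
    linarith
  have h2 := hasSum_geometric_of_lt_one h0 h1
  apply HasSum.of_nat_of_neg_add_one
  · have e1 : (fun n : ℕ => Real.exp (-y * |((n : ℤ) : ℝ)|)) = fun n => Real.exp (-y) ^ n := by
      funext n
      rw [← Real.exp_nat_mul]
      congr 1
      rw [Int.cast_natCast, abs_of_nonneg (Nat.cast_nonneg n)]
      ring
    rw [e1]
    exact h2
  · have e1 : (fun n : ℕ => Real.exp (-y * |((-((n : ℤ) + 1) : ℤ) : ℝ)|)) =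
        fun n => Real.exp (-y) * Real.exp (-y) ^ n := by
      funext n
      rw [← pow_succ', ← Real.exp_nat_mul]
      congr 1
      push_cast
      rw [abs_neg, abs_of_nonneg (by positivity)]
      ring
    rw [e1]
    exact h2.mul_left (Real.exp (-y))

theorem geo_le {y : ℝ} (hy : 0 < y) :
    (1 - Real.exp (-y))⁻¹ + Real.exp (-y) * (1 - Real.exp (-y))⁻¹ ≤ Real.exp (2 / y) := by
  have h1 : Real.exp (-y) < 1 := by
    rw [Real.exp_lt_one_iff]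
    linarith
  have h2 : Real.exp (-y) * (1 + y) ≤ 1 := by
    have h3 := Real.add_one_le_exp y
    have h4 : Real.exp (-y) * Real.exp y = 1 := by rw [← Real.exp_add]; simp
    nlinarith [Real.exp_pos (-y)]
  have h3 : (1 - Real.exp (-y))⁻¹ + Real.exp (-y) * (1 - Real.exp (-y))⁻¹ ≤ 1 + 2 / y := by
    have h4 : 0 < 1 - Real.exp (-y) := by linarith
    have h5 : (1 - Real.exp (-y))⁻¹ + Real.exp (-y) * (1 - Real.exp (-y))⁻¹ =
        1 + 2 * (Real.exp (-y) / (1 - Real.exp (-y))) := by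
      field_simp
      ring
    have h6 : Real.exp (-y) / (1 - Real.exp (-y)) ≤ 1 / y := by
      rw [div_le_div_iff₀ h4 hy]
      nlinarith
    have h7 : 2 / y = 2 * (1 / y) := by ring
    rw [h5, h7]
    linarith
  have h4 := Real.add_one_le_exp (2 / y)
  linarith

theorem abs_le_sq (n : ℤ) : |(n : ℝ)| ≤ (n : ℝ) ^ 2 := by
  have h1 : |n| ≤ n ^ 2 := by
    rcases eq_or_ne n 0 with rfl | h
    · simp
    · have h2 : (1 : ℤ) ≤ |n| := Int.one_le_abs h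
      nlinarith [sq_abs n]
  exact_mod_cast h1

theorem summable_gauss {y : ℝ} (hy : 0 < y) :
    Summable (fun n : ℤ => Real.exp (-y * (n : ℝ) ^ 2)) := by
  refine Summable.of_nonneg_of_le (fun n => (Real.exp_pos _).le) (fun n => ?_)
    (hasSum_geo hy).summable
  apply Real.exp_le_exp.2
  have := abs_le_sq n
  nlinarith

theorem gauss_le {y : ℝ} (hy : 0 < y) :
    ∑' n : ℤ, Real.exp (-y * (n : ℝ) ^ 2) ≤ Real.exp (2 / y) := by
  refine le_trans ?_ (geo_le hy)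
  rw [← (hasSum_geo hy).tsum_eq]
  refine (summable_gauss hy).tsum_le_tsum (fun n => ?_) (hasSum_geo hy).summable
  apply Real.exp_le_exp.2
  have := abs_le_sq n
  nlinarith

theorem one_le_gauss {y : ℝ} (hy : 0 < y) :
    1 ≤ ∑' n : ℤ, Real.exp (-y * (n : ℝ) ^ 2) := by
  have h := (summable_gauss hy).le_tsum (0 : ℤ) (fun n _ => (Real.exp_pos _).le)
  simpa using h

/-- the theta function -/
theorem theta_bounds {x : ℝ} (hx : 0 < x) :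
    √(Real.pi / x) ≤ ∑' n : ℤ, Real.exp (-x * (n : ℝ) ^ 2) ∧
      ∑' n : ℤ, Real.exp (-x * (n : ℝ) ^ 2) ≤
        √(Real.pi / x) * Real.exp (2 * x / Real.pi ^ 2) := by
  have hpi := Real.pi_pos
  have ha : 0 < x / Real.pi := div_pos hx hpi
  have h1 := Real.tsum_exp_neg_mul_int_sq ha
  have e1 : -Real.pi * (x / Real.pi) = -x := by field_simp
  have e2 : -Real.pi / (x / Real.pi) = -(Real.pi ^ 2 / x) := by field_simp
  have e3 : (1 : ℝ) / (x / Real.pi) ^ (1 / 2 : ℝ) = √(Real.pi / x) := by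
    rw [← Real.sqrt_eq_rpow, one_div, ← Real.sqrt_inv, inv_div]
  rw [e1, e2, e3] at h1
  have hy : 0 < Real.pi ^ 2 / x := by positivity
  have h2 := one_le_gauss hy
  have h3 := gauss_le hy
  have e4 : 2 / (Real.pi ^ 2 / x) = 2 * x / Real.pi ^ 2 := by field_simp
  rw [e4] at h3
  have h4 := Real.sqrt_nonneg (Real.pi / x)
  rw [h1]
  exact ⟨le_mul_of_one_le_right h4 h2, mul_le_mul_of_nonneg_left h3 h4⟩

/-- sums over `ℤ³` -/
def eq3 : (ℤ × ℤ) × ℤ ≃ (Fin 3 → ℤ) where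
  toFun p := ![p.1.1, p.1.2, p.2]
  invFun n := ((n 0, n 1), n 2)
  left_inv p := rfl
  right_inv n := by
    funext i
    fin_cases i <;> rfl

theorem tsum_cube (f : ℤ → ℝ≥0∞) :
    ∑' n : Fin 3 → ℤ, f (n 0) * f (n 1) * f (n 2) = (∑' k, f k) ^ 3 := by
  rw [← eq3.tsum_eq]
  have h1 : ∀ p : (ℤ × ℤ) × ℤ, f (eq3 p 0) * f (eq3 p 1) * f (eq3 p 2) =
      f p.1.1 * f p.1.2 * f p.2 := fun p => rfl
  simp_rw [h1]
  rw [ENNReal.tsum_prod' (f := fun p : (ℤ × ℤ) × ℤ => f p.1.1 * f p.1.2 * f p.2)]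
  simp_rw [ENNReal.tsum_mul_left, ENNReal.tsum_mul_right]
  rw [ENNReal.tsum_prod' (f := fun p : ℤ × ℤ => f p.1 * f p.2)]
  simp_rw [ENNReal.tsum_mul_left, ENNReal.tsum_mul_right]
  ring

theorem sqrt_id {q t : ℝ} (hq : 0 < q) (ht : 0 < t) :
    t ^ ((2 : ℝ) - 1) * √(Real.pi / (q * t)) ^ 3 = √(Real.pi / q) ^ 3 * t ^ ((1 / 2 : ℝ) - 1) := by
  have h1 : t ^ ((1 / 2 : ℝ) - 1) = (√t)⁻¹ := by
    rw [show (1 / 2 : ℝ) - 1 = -(1 / 2) by norm_num, Real.rpow_neg ht.le, ← Real.sqrt_eq_rpow]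
  have h2 : √(Real.pi / (q * t)) = √(Real.pi / q) / √t := by
    rw [← div_div, Real.sqrt_div (by positivity)]
  have h3 : t ^ ((2 : ℝ) - 1) = √t ^ 2 := by
    rw [Real.sq_sqrt ht.le, show (2 : ℝ) - 1 = 1 by norm_num, Real.rpow_one]
  have h4 : 0 < √t := Real.sqrt_pos.2 ht
  rw [h1, h2, h3]
  field_simp

/-- the value of the integral -/
theorem int_val {q B : ℝ} (hq : 0 < q) (hB : 0 < B) :
    ∫⁻ t in Ioi (0 : ℝ), ENNReal.ofReal (√(Real.pi / q) ^ 3 *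
      (t ^ ((1 / 2 : ℝ) - 1) * Real.exp (-(B * t)))) =
      ENNReal.ofReal (Real.pi ^ 2 / √B / (q * √q)) := by
  have h1 : ∀ t : ℝ, ENNReal.ofReal (√(Real.pi / q) ^ 3 *
      (t ^ ((1 / 2 : ℝ) - 1) * Real.exp (-(B * t)))) = ENNReal.ofReal (√(Real.pi / q) ^ 3) *
        ENNReal.ofReal (t ^ ((1 / 2 : ℝ) - 1) * Real.exp (-(B * t))) := fun t =>
    ENNReal.ofReal_mul (by positivity)
  simp_rw [h1]
  rw [lintegral_const_mul' _ _ ENNReal.ofReal_ne_top, lint_gamma (by norm_num) hB,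
    ← ENNReal.ofReal_mul (by positivity), Real.Gamma_one_half_eq, ← Real.sqrt_eq_rpow]
  congr 1
  rw [Real.sqrt_div Real.pi_pos.le, Real.sqrt_div zero_le_one, Real.sqrt_one]
  have h2 : 0 < √q := Real.sqrt_pos.2 hq
  have h3 : 0 < √B := Real.sqrt_pos.2 hB
  have h4 : √Real.pi ^ 4 = Real.pi ^ 2 := by
    rw [show (4 : ℕ) = 2 * 2 by norm_num, pow_mul, Real.sq_sqrt Real.pi_pos.le]
  have h5 : √q ^ 2 = q := Real.sq_sqrt hq.le
  field_simp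
  rw [h4, h5]
  ring

theorem main {q Δ : ℝ} (hq : 0 < q) (hΔ : 0 < Δ) (hB : 0 < Δ - 6 * q / Real.pi ^ 2)
    (s : (Fin 3 → ℤ) → ℝ) (hs : ∀ n, s n = (n 0 : ℝ) ^ 2 + (n 1 : ℝ) ^ 2 + (n 2 : ℝ) ^ 2) :
    ENNReal.ofReal (Real.pi ^ 2 / √Δ / (q * √q)) ≤
        ∑' n : Fin 3 → ℤ, ENNReal.ofReal (1 / (q * s n + Δ) ^ 2) ∧
      ∑' n : Fin 3 → ℤ, ENNReal.ofReal (1 / (q * s n + Δ) ^ 2) ≤
        ENNReal.ofReal (Real.pi ^ 2 / √(Δ - 6 * q / Real.pi ^ 2) / (q * √q)) := by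
  have hsn : ∀ n, 0 ≤ s n := fun n => by rw [hs]; positivity
  have h1 : ∀ n, ENNReal.ofReal (1 / (q * s n + Δ) ^ 2) = ∫⁻ t in Ioi (0 : ℝ),
      ENNReal.ofReal (t ^ ((2 : ℝ) - 1) * Real.exp (-((q * s n + Δ) * t))) := by
    intro n
    have hA : 0 < q * s n + Δ := by
      have := mul_nonneg hq.le (hsn n)
      linarith
    rw [lint_gamma two_pos hA, Real.Gamma_two, mul_one, Real.rpow_two, one_div_pow]
  simp_rw [h1]
  rw [← lintegral_tsum (fun n => by fun_prop)]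
  -- the sum for fixed `t`
  have h2 : ∀ t ∈ Ioi (0 : ℝ), ∑' n : Fin 3 → ℤ,
      ENNReal.ofReal (t ^ ((2 : ℝ) - 1) * Real.exp (-((q * s n + Δ) * t))) =
      ENNReal.ofReal (t ^ ((2 : ℝ) - 1) * Real.exp (-(Δ * t)) *
        (∑' k : ℤ, Real.exp (-(q * t) * (k : ℝ) ^ 2)) ^ 3) := by
    intro t ht
    have ht0 : (0 : ℝ) < t := ht
    have hpos : 0 ≤ t ^ ((2 : ℝ) - 1) * Real.exp (-(Δ * t)) :=
      mul_nonneg (Real.rpow_nonneg ht0.le _) (Real.exp_pos _).le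
    have h3 : ∀ n : Fin 3 → ℤ,
        ENNReal.ofReal (t ^ ((2 : ℝ) - 1) * Real.exp (-((q * s n + Δ) * t))) =
        ENNReal.ofReal (t ^ ((2 : ℝ) - 1) * Real.exp (-(Δ * t))) *
          (ENNReal.ofReal (Real.exp (-(q * t) * (n 0 : ℝ) ^ 2)) *
            ENNReal.ofReal (Real.exp (-(q * t) * (n 1 : ℝ) ^ 2)) *
              ENNReal.ofReal (Real.exp (-(q * t) * (n 2 : ℝ) ^ 2))) := by
      intro n
      rw [← ENNReal.ofReal_mul (Real.exp_pos _).le, ← ENNReal.ofReal_mul (by positivity),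
        ← ENNReal.ofReal_mul hpos, ← Real.exp_add, ← Real.exp_add, mul_assoc, ← Real.exp_add]
      congr 3
      rw [hs]
      ring
    simp_rw [h3]
    rw [ENNReal.tsum_mul_left, tsum_cube (fun k : ℤ =>
      ENNReal.ofReal (Real.exp (-(q * t) * (k : ℝ) ^ 2))),
      ← ENNReal.ofReal_tsum_of_nonneg (fun k => (Real.exp_pos _).le)
        (summable_gauss (mul_pos hq ht0)),
      ← ENNReal.ofReal_pow (tsum_nonneg fun k => (Real.exp_pos _).le), ← ENNReal.ofReal_mul hpos]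
  rw [setLIntegral_congr_fun measurableSet_Ioi h2]
  have h4 : ∀ t ∈ Ioi (0 : ℝ), √(Real.pi / q) ^ 3 *
      (t ^ ((1 / 2 : ℝ) - 1) * Real.exp (-(Δ * t))) ≤
      t ^ ((2 : ℝ) - 1) * Real.exp (-(Δ * t)) *
        (∑' k : ℤ, Real.exp (-(q * t) * (k : ℝ) ^ 2)) ^ 3 := by
    intro t ht
    have ht0 : (0 : ℝ) < t := ht
    have h5 := (theta_bounds (mul_pos hq ht0)).1
    rw [← mul_assoc, ← sqrt_id hq ht0]
    calc t ^ ((2 : ℝ) - 1) * √(Real.pi / (q * t)) ^ 3 * Real.exp (-(Δ * t)) =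
        t ^ ((2 : ℝ) - 1) * Real.exp (-(Δ * t)) * √(Real.pi / (q * t)) ^ 3 := by ring
      _ ≤ _ := mul_le_mul_of_nonneg_left (pow_le_pow_left₀ (Real.sqrt_nonneg _) h5 3)
          (mul_nonneg (Real.rpow_nonneg ht0.le _) (Real.exp_pos _).le)
  have h6 : ∀ t ∈ Ioi (0 : ℝ), t ^ ((2 : ℝ) - 1) * Real.exp (-(Δ * t)) *
        (∑' k : ℤ, Real.exp (-(q * t) * (k : ℝ) ^ 2)) ^ 3 ≤ √(Real.pi / q) ^ 3 *
      (t ^ ((1 / 2 : ℝ) - 1) * Real.exp (-((Δ - 6 * q / Real.pi ^ 2) * t))) := by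
    intro t ht
    have ht0 : (0 : ℝ) < t := ht
    have h5 := theta_bounds (mul_pos hq ht0)
    have h7 : 0 ≤ ∑' k : ℤ, Real.exp (-(q * t) * (k : ℝ) ^ 2) :=
      tsum_nonneg fun k => (Real.exp_pos _).le
    have h8 : Real.exp (-((Δ - 6 * q / Real.pi ^ 2) * t)) =
        Real.exp (-(Δ * t)) * Real.exp (2 * (q * t) / Real.pi ^ 2) ^ 3 := by
      rw [← Real.exp_nat_mul, ← Real.exp_add]
      congr 1
      push_cast
      ring
    rw [h8]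
    calc t ^ ((2 : ℝ) - 1) * Real.exp (-(Δ * t)) *
        (∑' k : ℤ, Real.exp (-(q * t) * (k : ℝ) ^ 2)) ^ 3 ≤
        t ^ ((2 : ℝ) - 1) * Real.exp (-(Δ * t)) *
          (√(Real.pi / (q * t)) * Real.exp (2 * (q * t) / Real.pi ^ 2)) ^ 3 :=
          mul_le_mul_of_nonneg_left (pow_le_pow_left₀ h7 h5.2 3)
            (mul_nonneg (Real.rpow_nonneg ht0.le _) (Real.exp_pos _).le)
      _ = (t ^ ((2 : ℝ) - 1) * √(Real.pi / (q * t)) ^ 3) * (Real.exp (-(Δ * t)) *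
          Real.exp (2 * (q * t) / Real.pi ^ 2) ^ 3) := by ring
      _ = _ := by rw [sqrt_id hq ht0]; ring
  constructor
  · rw [← int_val hq hΔ]
    exact setLIntegral_mono' measurableSet_Ioi fun t ht => ENNReal.ofReal_le_ofReal (h4 t ht)
  · rw [← int_val hq hB]
    exact setLIntegral_mono' measurableSet_Ioi fun t ht => ENNReal.ofReal_le_ofReal (h6 t ht)

theorem main' {q Δ : ℝ} (hq : 0 < q) (hΔ : 0 < Δ) (hB : 0 < Δ - 6 * q / Real.pi ^ 2)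
    (s : (Fin 3 → ℤ) → ℝ) (hs : ∀ n, s n = (n 0 : ℝ) ^ 2 + (n 1 : ℝ) ^ 2 + (n 2 : ℝ) ^ 2) :
    Summable (fun n : Fin 3 → ℤ => 1 / (q * s n + Δ) ^ 2) ∧
      Real.pi ^ 2 / √Δ ≤ q * √q * ∑' n : Fin 3 → ℤ, 1 / (q * s n + Δ) ^ 2 ∧
      q * √q * ∑' n : Fin 3 → ℤ, 1 / (q * s n + Δ) ^ 2 ≤
        Real.pi ^ 2 / √(Δ - 6 * q / Real.pi ^ 2) := by
  obtain ⟨h1, h2⟩ := main hq hΔ hB s hs
  have h0 : ∀ n : Fin 3 → ℤ, 0 ≤ 1 / (q * s n + Δ) ^ 2 := fun n => by positivity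
  have hne : ∑' n : Fin 3 → ℤ, ENNReal.ofReal (1 / (q * s n + Δ) ^ 2) ≠ ⊤ :=
    (h2.trans_lt ENNReal.ofReal_lt_top).ne
  have hS : Summable (fun n : Fin 3 → ℤ => 1 / (q * s n + Δ) ^ 2) := by
    have h3 := ENNReal.summable_toReal hne
    refine h3.congr fun n => ?_
    rw [ENNReal.toReal_ofReal (h0 n)]
  have hqq : 0 < q * √q := mul_pos hq (Real.sqrt_pos.2 hq)
  rw [← ENNReal.ofReal_tsum_of_nonneg h0 hS] at h1 h2
  have hB' : 0 ≤ Real.pi ^ 2 / √(Δ - 6 * q / Real.pi ^ 2) / (q * √q) := by positivity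
  rw [ENNReal.ofReal_le_ofReal_iff (tsum_nonneg h0), div_le_iff₀ hqq, mul_comm] at h1
  rw [ENNReal.ofReal_le_ofReal_iff hB', le_div_iff₀ hqq, mul_comm] at h2
  exact ⟨hS, h1, h2⟩

theorem lat_aux (Δ : ℝ) (hΔ : 0 < Δ) (ε : ℝ) (hε : 0 < ε) (s : (Fin 3 → ℤ) → ℝ)
    (hs : ∀ n, s n = (n 0 : ℝ) ^ 2 + (n 1 : ℝ) ^ 2 + (n 2 : ℝ) ^ 2) :
    ∃ q₀ : ℝ, 0 < q₀ ∧ ∀ q : ℝ, 0 < q → q < q₀ →
    Summable (fun n : Fin 3 → ℤ => 1 / (q * s n + Δ) ^ 2) ∧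
    |q * √q * ∑' n : Fin 3 → ℤ, 1 / (q * s n + Δ) ^ 2 - Real.pi ^ 2 / √Δ| ≤ ε := by
  have hc1 : ContinuousAt (fun q : ℝ => Δ - 6 * q / Real.pi ^ 2) 0 := by fun_prop
  have e0 : Δ - 6 * (0 : ℝ) / Real.pi ^ 2 = Δ := by simp
  have hc2 : ContinuousAt (fun q : ℝ => Real.pi ^ 2 / √(Δ - 6 * q / Real.pi ^ 2)) 0 := by
    refine continuousAt_const.div (hc1.sqrt) ?_
    show √(Δ - 6 * (0 : ℝ) / Real.pi ^ 2) ≠ 0
    rw [e0]
    exact (Real.sqrt_pos.2 hΔ).ne'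
  have h1 : ∀ᶠ q : ℝ in 𝓝 0, 0 < Δ - 6 * q / Real.pi ^ 2 := by
    refine hc1.tendsto.eventually (lt_mem_nhds ?_)
    rw [e0]
    exact hΔ
  have h2 : ∀ᶠ q : ℝ in 𝓝 0, Real.pi ^ 2 / √(Δ - 6 * q / Real.pi ^ 2) <
      Real.pi ^ 2 / √Δ + ε := by
    refine hc2.tendsto.eventually (gt_mem_nhds ?_)
    show Real.pi ^ 2 / √(Δ - 6 * (0 : ℝ) / Real.pi ^ 2) < _
    rw [e0]
    linarith
  obtain ⟨q₀, hq₀, h⟩ := Metric.eventually_nhds_iff.1 (h1.and h2)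
  refine ⟨q₀, hq₀, fun q hq hqq => ?_⟩
  obtain ⟨h3, h4⟩ := h (y := q) (by rw [Real.dist_eq, sub_zero, abs_of_pos hq]; exact hqq)
  obtain ⟨h5, h6, h7⟩ := main' hq hΔ h3 s hs
  refine ⟨h5, ?_⟩
  rw [abs_le]
  constructor <;> linarith

/-- **LAT.** -/
theorem lat : Pool.Agent.J6H80.BG.S_LAT := by
  intro Δ hΔ ε hε
  exact lat_aux Δ hΔ ε hε Pool.Agent.H751R2.LHY.sq fun n => by
    unfold Pool.Agent.H751R2.LHY.sq
    rw [Fin.sum_univ_three]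

end Pool.Agent.J6H48.BG
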